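import Pool.Agent.Q94.BMD

/-!
# Riesz Bernstein-Markov measures exist on all compact sets of positive capacity

Q1: yes, and the measure can be taken discrete (weighted sums of counting measures on polynomially
fine nets). Q2: yes (weak approximation, uniform on the compact family `𝒫_n(K)`).
-/

open MeasureTheory Q94.BM

theorem Pool.Agent.Results.MP_a7495c_an.Exists.result (d : ℕ) (α : ℝ) (hα : 0 < α)
    (K : Set (E d)) (hK : IsCompact K) :
    (PosCap α K → ∃ μ : Measure (E d), IsRBM α K μ ∧ IsDiscreteOn K μ) ∧
    ((∃ μ : Measure (E d), IsRBM α K μ) →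
      ∃ μ : Measure (E d), IsRBM α K μ ∧ IsDiscreteOn K μ) :=
  ⟨q1 hα hK, q2 hα hK⟩
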